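import Pool.Agent.MP_7b45f6_mp.H32.Spec

/-!
# Contacts in terms of adjacent pairs; an edge set has few tours
-/

set_option autoImplicit false

namespace Pool.Agent.MP_7b45f6_mp.H32

open Classical Filter Topology

namespace CONV

/-- Unordered adjacent pairs. -/
noncomputable def AP (V : Finset P) : Finset (Sym2 P) :=
  V.sym2.filter fun x => ∃ p q, x = s(p, q) ∧ Adj p q

theorem A2_eq (V : Finset P) : A2 V = 2 * (AP V).card := by
  rw [A2, Finset.card_eq_sum_card_fiberwise (f := fun x : P × P => s(x.1, x.2)) (t := AP V),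
    Finset.sum_const_nat (m := 2), mul_comm]
  · intro e he
    obtain ⟨h1, p, q, rfl, h⟩ := Finset.mem_filter.1 he
    rw [Finset.mk_mem_sym2_iff] at h1
    refine Finset.card_eq_two.2 ⟨(p, q), (q, p), fun e => h.ne (congrArg Prod.fst e), ?_⟩
    ext ⟨a, b⟩
    simp only [Finset.mem_filter, Finset.mem_product, Sym2.eq_iff, Finset.mem_insert,
      Finset.mem_singleton, Prod.mk.injEq]
    refine ⟨fun h => h.2, ?_⟩
    rintro (⟨rfl, rfl⟩ | ⟨rfl, rfl⟩)
    · exact ⟨⟨h1, h⟩, Or.inl ⟨rfl, rfl⟩⟩
    · exact ⟨⟨h1.symm, h.symm⟩, Or.inr ⟨rfl, rfl⟩⟩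
  · intro x hx
    simp only [Finset.coe_filter, Finset.mem_product, Set.mem_ofPred_eq] at hx
    exact Finset.mem_coe.2 (Finset.mem_filter.2 ⟨Finset.mk_mem_sym2_iff.2 hx.1, _, _, rfl, hx.2⟩)

theorem contacts_add {V : Finset P} {E : Finset (Sym2 P)} (h : E ⊆ AP V) :
    2 * (contacts V E + E.card) = A2 V := by
  rw [A2_eq, ← Finset.card_sdiff_add_card_eq_card h, contacts]
  congr 3
  ext x
  simp only [AP, Finset.mem_filter, Finset.mem_sdiff]
  tauto

theorem edges_nil : edges [] = ∅ := rfl

theorem edges_one (p : P) : edges [p] = ∅ := rfl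

theorem edges_cons (p q : P) (l : List P) :
    edges (p :: q :: l) = insert s(p, q) (edges (q :: l)) := by
  simp [edges]

theorem mem_of_edge {e : Sym2 P} {a : P} (ha : a ∈ e) : ∀ {w : List P}, e ∈ edges w → a ∈ w
  | [], h => by simp [edges_nil] at h
  | [p], h => by simp [edges_one] at h
  | p :: q :: l, h => by
    rw [edges_cons, Finset.mem_insert] at h
    rcases h with rfl | h
    · rcases Sym2.mem_iff.1 ha with rfl | rfl <;> simp
    · exact List.mem_cons_of_mem _ (mem_of_edge ha h)

theorem adj_of_edge {e : Sym2 P} : ∀ {w : List P}, w.IsChain Adj → e ∈ edges w →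
    ∃ p q, e = s(p, q) ∧ Adj p q
  | [], _, h => by simp [edges_nil] at h
  | [p], _, h => by simp [edges_one] at h
  | p :: q :: l, hc, h => by
    rw [edges_cons, Finset.mem_insert] at h
    rw [List.isChain_cons_cons] at hc
    rcases h with rfl | h
    · exact ⟨p, q, rfl, hc.1⟩
    · exact adj_of_edge hc.2 h

theorem not_mem_edges {p q : P} {w : List P} (h : p ∉ w) : s(p, q) ∉ edges w := fun he =>
  h (mem_of_edge (Sym2.mem_mk_left p q) he)

theorem card_edges : ∀ {w : List P}, w.Nodup → (edges w).card = w.length - 1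
  | [], _ => rfl
  | [_], _ => rfl
  | p :: q :: l, h => by
    rw [List.nodup_cons] at h
    rw [edges_cons, Finset.card_insert_of_notMem (not_mem_edges h.1), card_edges h.2]
    simp

theorem cover {a : P} : ∀ (l : List P) (p q : P), a ∈ p :: q :: l →
    ∃ e ∈ edges (p :: q :: l), a ∈ e
  | [], p, q, h => ⟨s(p, q), by simp [edges_cons], by simpa using h⟩
  | r :: l, p, q, h => by
    rw [edges_cons]
    rcases List.mem_cons.1 h with rfl | h
    · exact ⟨_, Finset.mem_insert_self _ _, Sym2.mem_mk_left _ _⟩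
    · obtain ⟨e, h1, h2⟩ := cover l q r h
      exact ⟨e, Finset.mem_insert_of_mem h1, h2⟩

theorem insert_cancel {e : Sym2 P} {s t : Finset (Sym2 P)} (hs : e ∉ s) (ht : e ∉ t)
    (h : insert e s = insert e t) : s = t := by
  rw [← Finset.erase_insert hs, h, Finset.erase_insert ht]

theorem path_eq : ∀ (l l' : List P) (p : P), (p :: l).Nodup → (p :: l').Nodup →
    edges (p :: l) = edges (p :: l') → l = l'
  | [], [], _, _, _, _ => rfl
  | [], q :: t, p, _, _, h => by
    rw [edges_one, edges_cons] at h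
    exact absurd h.symm (Finset.insert_ne_empty _ _)
  | q :: t, [], p, _, _, h => by simp [edges_one, edges_cons] at h
  | q :: t, q' :: t', p, h1, h2, h => by
    rw [List.nodup_cons] at h1 h2
    rw [edges_cons, edges_cons] at h
    have h3 : s(p, q) ∈ insert s(p, q') (edges (q' :: t')) := h ▸ Finset.mem_insert_self _ _
    obtain rfl : q = q' :=
      Sym2.congr_right.1 ((Finset.mem_insert.1 h3).resolve_right (not_mem_edges h2.1))
    rw [path_eq t t' q h1.2 h2.2 (insert_cancel (not_mem_edges h1.1) (not_mem_edges h2.1) h)]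

theorem three {w : List P} (h : 3 ≤ w.length) : ∃ a b c l, w = a :: b :: c :: l := by
  match w, h with
  | a :: b :: c :: l, _ => exact ⟨a, b, c, l, rfl⟩

theorem rot_nodup {a : P} {l : List P} (h : (a :: l).Nodup) : (l ++ [a]).Nodup :=
  (List.perm_append_singleton a l).nodup_iff.2 h

theorem closing {a b c : P} {l : List P} (h : (a :: b :: c :: l).Nodup) :
    s(a, b) ∉ edges (b :: c :: (l ++ [a])) := by
  have h1 : (b :: c :: (l ++ [a])).Nodup := rot_nodup h
  rw [edges_cons, Finset.mem_insert, Sym2.eq_swap]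
  rintro (e | e)
  · obtain rfl := Sym2.congr_right.1 e
    simp at h
  · exact not_mem_edges (List.nodup_cons.1 h1).1 e

theorem verts_eq {w : List P} (h : 3 ≤ w.length) : verts (edges (w ++ w.take 1)) = w.toFinset := by
  obtain ⟨a, b, c, l, rfl⟩ := three h
  ext x
  simp only [verts, Finset.mem_biUnion, Sym2.mem_toFinset, List.mem_toFinset]
  refine ⟨fun ⟨e, h1, h2⟩ => ?_, fun hx => cover (c :: (l ++ [a])) a b ?_⟩
  · have := mem_of_edge h2 h1
    simp only [List.mem_append, List.take_succ_cons, List.take_zero, List.mem_singleton] at this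
    exact this.elim id fun e => e ▸ List.mem_cons_self
  · exact List.mem_append_left [a] hx

end CONV

open CONV

theorem conv : ConvStmt := by
  refine ⟨fun w hn hc => ?_, fun w h3 hn hc => ⟨verts_eq h3, ?_⟩, fun n E s hs => ?_⟩
  · rw [← card_edges hn]
    exact contacts_add fun e he => Finset.mem_filter.2 ⟨Finset.mem_sym2_iff.2 fun a ha =>
      List.mem_toFinset.2 (mem_of_edge ha he), adj_of_edge hc he⟩
  · have h1 : (edges (w ++ w.take 1)).card = w.length := by
      obtain ⟨a, b, c, l, rfl⟩ := three h3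
      refine (congrArg Finset.card (edges_cons a b (c :: (l ++ [a])))).trans ?_
      rw [Finset.card_insert_of_notMem (closing hn),
        card_edges (w := b :: c :: (l ++ [a])) (rot_nodup hn)]
      simp
    rw [← h1]
    refine contacts_add fun e he => Finset.mem_filter.2 ⟨Finset.mem_sym2_iff.2 fun a ha => ?_,
      adj_of_edge hc he⟩
    rw [← verts_eq h3]
    exact Finset.mem_biUnion.2 ⟨e, he, Sym2.mem_toFinset.2 ha⟩
  · rcases s.eq_empty_or_nonempty with rfl | ⟨w₀, hw₀⟩
    · simp
    have hv : ∀ w ∈ s, verts E = w.toFinset := fun w hw => by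
      obtain ⟨h1, h2, -, h4⟩ := hs w hw
      rw [h4, verts_eq (by omega)]
    have hc : (verts E ×ˢ verts E).card = n ^ 2 := by
      rw [Finset.card_product, hv w₀ hw₀, List.toFinset_card_of_nodup (hs w₀ hw₀).2.2.1,
        (hs w₀ hw₀).1, sq]
    rw [← hc]
    refine Finset.card_le_card_of_injOn (fun w => (w.headD 0, w.tail.headD 0)) (fun w hw => ?_)
      fun w hw w' hw' e => ?_
    · obtain ⟨h1, h2, -⟩ := hs w hw
      obtain ⟨a, b, c, l, rfl⟩ := three (w := w) (by omega)
      simp [hv _ hw]
    · obtain ⟨h1, h2, h3, h4⟩ := hs w hw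
      obtain ⟨h1', -, h3', h4'⟩ := hs w' hw'
      obtain ⟨a, b, c, l, rfl⟩ := three (w := w) (by omega)
      obtain ⟨a', b', c', l', rfl⟩ := three (w := w') (by omega)
      obtain ⟨rfl, rfl⟩ : a = a' ∧ b = b' := by simpa using e
      have h5 := path_eq (c :: (l ++ [a])) (c' :: (l' ++ [a])) b (rot_nodup h3) (rot_nodup h3')
        (insert_cancel (closing h3) (closing h3') ((edges_cons _ _ _).symm.trans
          ((h4.symm.trans h4').trans (edges_cons _ _ _))))
      simp only [List.cons.injEq, List.append_cancel_right_eq] at h5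
      rw [h5.1, h5.2]

end Pool.Agent.MP_7b45f6_mp.H32
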